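import Pool.Agent.N162.CV.Pl

/-!
# Project CV (helper162), task ALG: common zeros of coprime polynomials are algebraic
-/

set_option autoImplicit false

namespace Pool.Agent.N615.CV

open Pool.Agent.N162.CV

/-- a zero of an element is a zero of an irreducible factor -/
theorem exists_irr {S Ω : Type} [CommRing S] [IsDomain S] [UniqueFactorizationMonoid S] [Field Ω]
    (f : S →+* Ω) (a : S) (ha : a ≠ 0) (h : f a = 0) :
    ∃ π : S, Irreducible π ∧ π ∣ a ∧ f π = 0 := by
  obtain ⟨u, hu⟩ := UniqueFactorizationMonoid.factors_prod ha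
  have h1 : f (UniqueFactorizationMonoid.factors a).prod = 0 := by
    have h2 : f (UniqueFactorizationMonoid.factors a).prod * f u = 0 := by
      rw [← map_mul, hu, h]
    rcases mul_eq_zero.1 h2 with h3 | h3
    · exact h3
    · exact absurd h3 (u.isUnit.map f).ne_zero
  rw [map_multiset_prod, Multiset.prod_eq_zero_iff, Multiset.mem_map] at h1
  obtain ⟨π, hπ, hπ0⟩ := h1
  refine ⟨π, UniqueFactorizationMonoid.irreducible_of_factor π hπ, ?_, hπ0⟩
  exact UniqueFactorizationMonoid.dvd_of_mem_factors hπ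

/-- two relatively prime polynomials over a factorial domain have no common zero which is
transcendental over the domain -/
theorem core {R Ω : Type} [CommRing R] [IsDomain R] [UniqueFactorizationMonoid R] [Field Ω]
    (φ : R →+* Ω) (hφ : Function.Injective φ) (A B : Polynomial R) (hA : A ≠ 0) (hB : B ≠ 0)
    (h : IsRelPrime A B) (y : Ω) (hAy : A.eval₂ φ y = 0) (hBy : B.eval₂ φ y = 0) : False := by
  classical
  let _ : NormalizedGCDMonoid R := Classical.choice inferInstance
  obtain ⟨π, hπ, hπA, hπy⟩ := exists_irr (Polynomial.eval₂RingHom φ y) A hA hAy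
  obtain ⟨ρ, hρ, hρB, hρy⟩ := exists_irr (Polynomial.eval₂RingHom φ y) B hB hBy
  rw [Polynomial.coe_eval₂RingHom] at hπy hρy
  have hdeg : ∀ τ : Polynomial R, Irreducible τ → τ.eval₂ φ y = 0 → τ.natDegree ≠ 0 := by
    intro τ hτ hτy h0
    rw [Polynomial.eq_C_of_natDegree_eq_zero h0, Polynomial.eval₂_C] at hτy
    have h1 := (map_eq_zero_iff φ hφ).1 hτy
    apply hτ.ne_zero
    rw [Polynomial.eq_C_of_natDegree_eq_zero h0, h1, Polynomial.C_0]
  have hπp := hπ.isPrimitive (hdeg π hπ hπy)
  have hρp := hρ.isPrimitive (hdeg ρ hρ hρy)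
  have hπK := (hπp.irreducible_iff_irreducible_map_fraction_map (K := FractionRing R)).1 hπ
  obtain ⟨ψ, hψ⟩ : ∃ ψ : FractionRing R →+* Ω, ψ.comp (algebraMap R (FractionRing R)) = φ :=
    ⟨IsFractionRing.lift hφ, by
      ext x
      exact IsFractionRing.lift_algebraMap hφ x⟩
  have hev : ∀ τ : Polynomial R, (τ.map (algebraMap R (FractionRing R))).eval₂ ψ y =
      τ.eval₂ φ y := by
    intro τ
    rw [Polynomial.eval₂_map, hψ]
  have hdvd : π.map (algebraMap R (FractionRing R)) ∣ ρ.map (algebraMap R (FractionRing R)) := by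
    by_contra hnd
    obtain ⟨u, v, huv⟩ := (hπK.coprime_iff_not_dvd).2 hnd
    have h1 := congrArg (Polynomial.eval₂ ψ y) huv
    rw [Polynomial.eval₂_add, Polynomial.eval₂_mul, Polynomial.eval₂_mul, hev, hev, hπy, hρy,
      mul_zero, mul_zero, add_zero, Polynomial.eval₂_one] at h1
    exact zero_ne_one h1
  have h2 := hπp.dvd_of_fraction_map_dvd_fraction_map hdvd
  exact hπ.not_isUnit (h hπA (h2.trans hρB))

open MvPolynomial in
theorem alg1 {L Ω : Type} [Field L] [Field Ω] [Algebra L Ω]
    (A B : MvPolynomial (Fin 2) L) (hA : A ≠ 0) (hB : B ≠ 0) (h : IsRelPrime A B) (p : Fin 2 → Ω)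
    (hAp : aeval p A = 0) (hBp : aeval p B = 0) : IsAlgebraic L (p 1) := by
  by_contra hp
  obtain ⟨φ, hφ⟩ : ∃ φ : MvPolynomial (Fin 1) L →+* Ω,
      φ = (aeval (fun _ : Fin 1 => p 1) : MvPolynomial (Fin 1) L →ₐ[L] Ω).toRingHom := ⟨_, rfl⟩
  have hinj : Function.Injective φ := by
    rw [hφ]
    have h1 : AlgebraicIndependent L (fun _ : Fin 1 => p 1) := by
      rw [algebraicIndependent_unique_type_iff]
      exact hp
    exact h1
  have key : ∀ P : MvPolynomial (Fin 2) L,
      Polynomial.eval₂ φ (p 0) (finSuccEquiv L 1 P) = aeval p P := by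
    intro P
    induction P using MvPolynomial.induction_on with
    | C a =>
      have h1 : finSuccEquiv L 1 (C a) = Polynomial.C (C a) := by
        rw [← MvPolynomial.algebraMap_eq, AlgEquiv.commutes]
        rfl
      rw [h1, Polynomial.eval₂_C, hφ]
      simp
    | add P Q hP hQ => rw [map_add, Polynomial.eval₂_add, hP, hQ, map_add]
    | mul_X P i hP =>
      rw [map_mul, Polynomial.eval₂_mul, hP, map_mul, aeval_X]
      congr 1
      refine Fin.cases ?_ (fun i => ?_) i
      · rw [finSuccEquiv_X_zero, Polynomial.eval₂_X]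
      · rw [finSuccEquiv_X_succ, Polynomial.eval₂_C, hφ]
        have : i = 0 := Subsingleton.elim _ _
        subst this
        simp
  refine core φ hinj (finSuccEquiv L 1 A) (finSuccEquiv L 1 B) ?_ ?_ ?_ (p 0) ?_ ?_
  · intro h1
    exact hA ((map_eq_zero_iff _ (finSuccEquiv L 1).injective).1 h1)
  · intro h1
    exact hB ((map_eq_zero_iff _ (finSuccEquiv L 1).injective).1 h1)
  · intro d hd1 hd2
    have h1 := map_dvd (finSuccEquiv L 1).symm hd1
    have h2 := map_dvd (finSuccEquiv L 1).symm hd2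
    rw [AlgEquiv.symm_apply_apply] at h1 h2
    have h3 := (h h1 h2).map (finSuccEquiv L 1)
    rwa [AlgEquiv.apply_symm_apply] at h3
  · rw [key, hAp]
  · rw [key, hBp]

open MvPolynomial in
/-- **CV/ALG.** -/
theorem alg_ : StALG := by
  intro L Ω _ _ _ A B hA hB h p hAp hBp j
  obtain ⟨e, he⟩ : ∃ e : MvPolynomial (Fin 2) L ≃ₐ[L] MvPolynomial (Fin 2) L,
      e = renameEquiv L (Equiv.swap (0 : Fin 2) 1) := ⟨_, rfl⟩
  have h1 : ∀ P : MvPolynomial (Fin 2) L,
      aeval (fun i => p (Equiv.swap (0 : Fin 2) 1 i)) (e P) = aeval p P := by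
    intro P
    rw [he, renameEquiv_apply, aeval_rename]
    congr 2
    funext i
    simp
  have h2 : IsAlgebraic L (p 1) := alg1 A B hA hB h p hAp hBp
  have h3 : IsAlgebraic L (p 0) := by
    have h4 := alg1 (e A) (e B) ?_ ?_ ?_ (fun i => p (Equiv.swap (0 : Fin 2) 1 i))
      (by rw [h1, hAp]) (by rw [h1, hBp])
    · simpa using h4
    · intro h0
      exact hA ((map_eq_zero_iff _ e.injective).1 h0)
    · intro h0
      exact hB ((map_eq_zero_iff _ e.injective).1 h0)
    · intro d hd1 hd2
      have h5 := map_dvd e.symm hd1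
      have h6 := map_dvd e.symm hd2
      rw [AlgEquiv.symm_apply_apply] at h5 h6
      have h7 := (h h5 h6).map e
      rwa [AlgEquiv.apply_symm_apply] at h7
  revert j
  rw [Fin.forall_fin_two]
  exact ⟨h3, h2⟩

end Pool.Agent.N615.CV
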