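import Pool.Agent.N162.CV.Pl

/-!
# Project CV (helper162), task BEZ: the inequality of Bezout in the plane
-/

set_option autoImplicit false

namespace Pool.Agent.N615.CV

open Pool.Agent.N162.CV MvPolynomial

/-- a polynomial of degree at most `|Q|` which vanishes on `Q` and not at `q` -/
theorem sep {Ω : Type} [Field Ω] (Q : Finset (Fin 2 → Ω)) (q : Fin 2 → Ω) (hq : q ∉ Q) :
    ∃ P : MvPolynomial (Fin 2) Ω, P.totalDegree ≤ Q.card ∧ eval q P ≠ 0 ∧
      ∀ q' ∈ Q, eval q' P = 0 := by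
  classical
  induction Q using Finset.induction_on with
  | empty => exact ⟨1, by simp, by simp, by simp⟩
  | insert a s ha ih =>
    rw [Finset.mem_insert, not_or] at hq
    obtain ⟨P, h1, h2, h3⟩ := ih hq.2
    obtain ⟨j, hj⟩ : ∃ j, q j ≠ a j := by
      by_contra hcon
      push Not at hcon
      exact hq.1 (funext hcon)
    refine ⟨(X j - C (a j)) * P, ?_, ?_, ?_⟩
    · refine (totalDegree_mul _ _).trans ?_
      rw [Finset.card_insert_of_notMem ha]
      have h4 : (X j - C (a j) : MvPolynomial (Fin 2) Ω).totalDegree ≤ 1 :=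
        (totalDegree_sub_C_le _ _).trans (totalDegree_X _).le
      omega
    · rw [map_mul, map_sub, eval_X, eval_C]
      exact mul_ne_zero (sub_ne_zero.2 hj) h2
    · intro q' hq'
      rw [map_mul, map_sub, eval_X, eval_C]
      rcases Finset.mem_insert.1 hq' with rfl | h
      · rw [sub_self, zero_mul]
      · rw [h3 q' h, mul_zero]

/-- the values at the points of `Q` -/
noncomputable def ev {Ω : Type} [Field Ω] (Q : Finset (Fin 2 → Ω)) :
    MvPolynomial (Fin 2) Ω →ₗ[Ω] (Q → Ω) where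
  toFun P := fun q => eval (q : Fin 2 → Ω) P
  map_add' P P' := by
    funext q
    exact map_add _ _ _
  map_smul' c P := by
    funext q
    simp [smul_eval]

theorem ev_apply {Ω : Type} [Field Ω] (Q : Finset (Fin 2 → Ω)) (P : MvPolynomial (Fin 2) Ω)
    (q : Q) : ev Q P q = eval (q : Fin 2 → Ω) P := rfl

/-- **CV/BEZ.** -/
theorem bez_ (hd : StDIM) : StBEZ := by
  intro Ω _ _ A B hA hB h Q hQ
  classical
  obtain ⟨a, ha⟩ : ∃ a, a = A.totalDegree := ⟨_, rfl⟩
  obtain ⟨b, hb⟩ : ∃ b, b = B.totalDegree := ⟨_, rfl⟩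
  obtain ⟨n, hn⟩ : ∃ n, n = Q.card := ⟨_, rfl⟩
  rw [← ha, ← hb, ← hn]
  obtain ⟨V, hVd⟩ : ∃ V : ℕ → Submodule Ω (MvPolynomial (Fin 2) Ω),
      V = fun k => restrictTotalDegree (Fin 2) Ω k := ⟨_, rfl⟩
  have hmem : ∀ (k : ℕ) (P : MvPolynomial (Fin 2) Ω), P ∈ V k ↔ P.totalDegree ≤ k := by
    intro k P
    rw [hVd]
    exact mem_restrictTotalDegree (Fin 2) k P
  have hfd : ∀ k, FiniteDimensional Ω (V k) := by
    intro k
    rw [hVd]
    exact (hd Ω k).1
  have hV : ∀ k, 2 * Module.finrank Ω (V k) = (k + 1) * (k + 2) := by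
    intro k
    rw [hVd]
    exact (hd Ω k).2
  have hmap : ∀ (P : MvPolynomial (Fin 2) Ω), P ≠ 0 →
      ∀ W : Submodule Ω (MvPolynomial (Fin 2) Ω),
      Module.finrank Ω (W.map (LinearMap.mulLeft Ω P)) = Module.finrank Ω W := by
    intro P hP W
    have hinj : Function.Injective (LinearMap.mulLeft Ω P) := by
      intro x y hxy
      rw [LinearMap.mulLeft_apply, LinearMap.mulLeft_apply] at hxy
      exact mul_left_cancel₀ hP hxy
    exact (Submodule.equivMapOfInjective (LinearMap.mulLeft Ω P) hinj W).finrank_eq.symm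
  obtain ⟨W1, hW1⟩ : ∃ W1, W1 = (V (b + n)).map (LinearMap.mulLeft Ω A) := ⟨_, rfl⟩
  obtain ⟨W2, hW2⟩ : ∃ W2, W2 = (V (a + n)).map (LinearMap.mulLeft Ω B) := ⟨_, rfl⟩
  obtain ⟨W3, hW3⟩ : ∃ W3, W3 = (V n).map (LinearMap.mulLeft Ω (A * B)) := ⟨_, rfl⟩
  have hf1 : FiniteDimensional Ω W1 := by
    rw [hW1]
    have := hfd (b + n)
    infer_instance
  have hf2 : FiniteDimensional Ω W2 := by
    rw [hW2]
    have := hfd (a + n)
    infer_instance
  have hf3 : FiniteDimensional Ω W3 := by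
    rw [hW3]
    have := hfd n
    infer_instance
  have hinf : W1 ⊓ W2 ≤ W3 := by
    intro x hx
    rw [hW1, hW2, Submodule.mem_inf, Submodule.mem_map, Submodule.mem_map] at hx
    obtain ⟨⟨u, hu, hux⟩, ⟨v, hv, hvx⟩⟩ := hx
    rw [LinearMap.mulLeft_apply] at hux hvx
    have hdv : A ∣ B * v := ⟨u, by rw [hvx, hux]⟩
    obtain ⟨w, hw⟩ := h.dvd_of_dvd_mul_left hdv
    rw [hW3, Submodule.mem_map]
    refine ⟨w, ?_, ?_⟩
    · rw [hmem]
      rw [hmem] at hv
      by_cases hw0 : w = 0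
      · rw [hw0, totalDegree_zero]
        exact Nat.zero_le _
      · rw [hw, totalDegree_mul_of_isDomain hA hw0, ← ha] at hv
        omega
    · rw [LinearMap.mulLeft_apply, ← hvx, hw]
      ring
  have hle1 : W1 ⊔ W2 ≤ V (a + b + n) := by
    rw [sup_le_iff]
    constructor
    · intro x hx
      rw [hW1, Submodule.mem_map] at hx
      obtain ⟨u, hu, rfl⟩ := hx
      rw [hmem] at hu ⊢
      rw [LinearMap.mulLeft_apply]
      refine (totalDegree_mul _ _).trans ?_
      omega
    · intro x hx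
      rw [hW2, Submodule.mem_map] at hx
      obtain ⟨u, hu, rfl⟩ := hx
      rw [hmem] at hu ⊢
      rw [LinearMap.mulLeft_apply]
      refine (totalDegree_mul _ _).trans ?_
      omega
  have hle2 : W1 ⊔ W2 ≤ LinearMap.ker (ev Q) := by
    rw [sup_le_iff]
    constructor
    · intro x hx
      rw [hW1, Submodule.mem_map] at hx
      obtain ⟨u, hu, rfl⟩ := hx
      rw [LinearMap.mem_ker]
      funext q
      rw [ev_apply, LinearMap.mulLeft_apply, map_mul, (hQ q q.2).1, zero_mul]
      rfl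
    · intro x hx
      rw [hW2, Submodule.mem_map] at hx
      obtain ⟨u, hu, rfl⟩ := hx
      rw [LinearMap.mem_ker]
      funext q
      rw [ev_apply, LinearMap.mulLeft_apply, map_mul, (hQ q q.2).2, zero_mul]
      rfl
  obtain ⟨f, hf⟩ : ∃ f : V (a + b + n) →ₗ[Ω] (Q → Ω), f = (ev Q).domRestrict (V (a + b + n)) :=
    ⟨_, rfl⟩
  have hfa : ∀ (P : V (a + b + n)) (q : Q),
      f P q = eval (q : Fin 2 → Ω) (P : MvPolynomial (Fin 2) Ω) := by
    intro P q
    rw [hf]
    rfl
  have hsurj : LinearMap.range f = ⊤ := by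
    rw [eq_top_iff]
    intro g _
    have hsep : ∀ q : Q, ∃ P : V (a + b + n), f P q ≠ 0 ∧ ∀ q' : Q, q' ≠ q → f P q' = 0 := by
      intro q
      obtain ⟨P, h1, h2, h3⟩ := sep (Q.erase q) q (Finset.notMem_erase _ _)
      have h4 : P ∈ V (a + b + n) := by
        rw [hmem]
        have := Finset.card_erase_le (s := Q) (a := (q : Fin 2 → Ω))
        omega
      refine ⟨⟨P, h4⟩, ?_, ?_⟩
      · rw [hfa]
        exact h2
      · intro q' hq'
        rw [hfa]
        exact h3 q' (Finset.mem_erase.2 ⟨fun he => hq' (Subtype.ext he), q'.2⟩)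
    choose P hP1 hP2 using hsep
    refine ⟨∑ q : Q, (g q / f (P q) q) • P q, ?_⟩
    funext q
    rw [map_sum, Finset.sum_apply, Finset.sum_eq_single q]
    · rw [map_smul, Pi.smul_apply, smul_eq_mul, div_mul_cancel₀ _ (hP1 q)]
    · intro q' _ hne
      rw [map_smul, Pi.smul_apply, hP2 q' q hne.symm, smul_zero]
    · intro hcon
      exact absurd (Finset.mem_univ q) hcon
  have hfdV := hfd (a + b + n)
  have hrn := LinearMap.finrank_range_add_finrank_ker f
  rw [hsurj, finrank_top, Module.finrank_fintype_fun_eq_card, Fintype.card_coe, ← hn] at hrn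
  have hker : Module.finrank Ω (W1 ⊔ W2 : Submodule Ω (MvPolynomial (Fin 2) Ω)) ≤
      Module.finrank Ω (LinearMap.ker f) := by
    rw [← (Submodule.comapSubtypeEquivOfLe hle1).finrank_eq]
    refine Submodule.finrank_mono ?_
    intro x hx
    rw [Submodule.mem_comap] at hx
    have h1 := hle2 hx
    rw [LinearMap.mem_ker] at h1 ⊢
    rw [hf]
    exact h1
  have hsum := Submodule.finrank_sup_add_finrank_inf_eq W1 W2
  have h3 : Module.finrank Ω (W1 ⊓ W2 : Submodule Ω (MvPolynomial (Fin 2) Ω)) ≤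
      Module.finrank Ω W3 := Submodule.finrank_mono hinf
  have e1 : Module.finrank Ω W1 = Module.finrank Ω (V (b + n)) := by
    rw [hW1]
    exact hmap A hA _
  have e2 : Module.finrank Ω W2 = Module.finrank Ω (V (a + n)) := by
    rw [hW2]
    exact hmap B hB _
  have e3 : Module.finrank Ω W3 = Module.finrank Ω (V n) := by
    rw [hW3]
    exact hmap (A * B) (mul_ne_zero hA hB) _
  rw [e1, e2] at hsum
  rw [e3] at h3
  have v1 := hV (a + b + n)
  have v2 := hV (b + n)
  have v3 := hV (a + n)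
  have v4 := hV n
  nlinarith

end Pool.Agent.N615.CV
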